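import Pool.Agent.Y462.PA.Stm

/-!
# Project PA: residual finiteness
-/

set_option autoImplicit false

namespace Pool.Agent.Y500.PA

open Pool.Agent.Y462.SS

/-- the action on the words of length at most `n` -/
def lev (X : Type) (n : ℕ) : T X →* Equiv.Perm {w : List X // w.length ≤ n} where
  toFun g := Equiv.Perm.subtypePerm g.1 (fun w => by rw [g.2.1 w])
  map_one' := by
    ext w
    rfl
  map_mul' g h := by
    ext w
    rfl

theorem res (X : Type) (hX : Finite X) (K : Subgroup (T X)) (hK : Finite K) :
    ∃ (Q : Type) (_ : Group Q) (f : T X →* Q), Finite Q ∧ ∀ k ∈ K, f k = 1 → k = 1 := by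
  classical
  have hw : ∀ k : K, ∃ w : List X, (k.1.1 w = w → k = 1) := by
    intro k
    by_cases h : k = 1
    · exact ⟨[], fun _ => h⟩
    · by_contra hcon
      push Not at hcon
      apply h
      apply Subtype.ext
      apply Subtype.ext
      ext1 w
      exact (hcon w).1
  choose w hw using hw
  obtain ⟨n, hn⟩ := (Set.finite_range fun k : K => (w k).length).bddAbove
  have hn' : ∀ k : K, (w k).length ≤ n := fun k => hn ⟨k, rfl⟩
  have hfin : Finite {w : List X // w.length ≤ n} := List.finite_length_le X n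
  refine ⟨Equiv.Perm {w : List X // w.length ≤ n}, inferInstance, lev X n, inferInstance, ?_⟩
  intro k hk h1
  have h2 := congrArg Subtype.val (congrArg (fun e : Equiv.Perm _ => e ⟨w ⟨k, hk⟩, hn' _⟩) h1)
  have h3 : k.1 (w ⟨k, hk⟩) = w ⟨k, hk⟩ := h2
  exact congrArg Subtype.val (hw ⟨k, hk⟩ h3)

theorem t_res : Pool.Agent.Y462.PA.S_RES := res

end Pool.Agent.Y500.PA
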